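import Pool.Agent.V11193.Ver.Final

/-!
# The eigenvalue inequality fails for the Veronese embedding of `ℝPⁿ`, `n ≥ 6`

Disproof of Q1 of MP_84c1ad_gt. The Veronese map embeds `ℝPⁿ` minimally in a unit sphere; its
eigenvalues are `0`, then `n` with multiplicity `n (n + 3) / 2`, and then
`b = 2 n (n + 3) / (n + 1)` with multiplicity at least `n`. For `j = n (n + 3) / 2` the left-hand side is
at least `n b`, the right-hand side at most `(n + 3) n + n² / b + n²`, which is smaller for `n ≥ 6`.

The spectrum is computed with the completeness of homogeneous polynomials (Stone-Weierstrass and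
Green's identity on a spherical shell).
-/

set_option autoImplicit false

open Pool.Agent.H85R3.Minimal Pool.Agent.V11193.Ver

namespace Pool.Agent.Results.MP_84c1ad_gt.VeroneseCounterexample

/-- For every `n ≥ 6` there is a closed connected `n`-dimensional submanifold `M` of some `ℝ^N`,
`N ≥ n + 2`, that is a minimal submanifold of the unit sphere and whose eigenvalues `λ_i`
(`i = 0, 1, 2, …`, counted with multiplicity) satisfy
`∑_{k=1}^n λ_{j+k} > (n + 3) λ_j + λ_j² / λ_{j+1} + n²` for `j = n (n + 3) / 2`. -/
theorem result (n : ℕ) (hn : 6 ≤ n) :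
    ∃ (N : ℕ) (M : Set (E N)), n + 2 ≤ N ∧ IsClosedSubmanifold n M ∧ IsMinimalInSphere n M ∧
      (n + 3 : ℝ) * eigenvalue n M (n * (n + 3) / 2) +
        eigenvalue n M (n * (n + 3) / 2) ^ 2 / eigenvalue n M (n * (n + 3) / 2 + 1) + (n : ℝ) ^ 2 <
      ∑ k ∈ Finset.Icc 1 n, eigenvalue n M (n * (n + 3) / 2 + k) :=
  main n hn

end Pool.Agent.Results.MP_84c1ad_gt.VeroneseCounterexample
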